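import Pool.Agent.H75.L.W662.CB.Stmts

/-!
CB-A5: the commutator norm.
-/

set_option autoImplicit false

open MeasureTheory Filter Topology Complex
open scoped InnerProductSpace ENNReal

namespace Pool.Agent.W391.CB

open Pool.Agent.W662.CB

set_option linter.unusedSectionVars false

section

variable {H : Type} [NormedAddCommGroup H] [InnerProductSpace ℂ H] [CompleteSpace H]

theorem vst_le (ξ : H) (hξ : ‖ξ‖ = 1) (y : H →L[ℂ] H) : ‖vst ξ y‖ ≤ ‖y‖ := by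
  unfold vst
  calc ‖⟪ξ, y ξ⟫_ℂ‖ ≤ ‖ξ‖ * ‖y ξ‖ := norm_inner_le_norm _ _
    _ ≤ ‖ξ‖ * (‖y‖ * ‖ξ‖) := by
      gcongr
      exact y.le_opNorm ξ
    _ = ‖y‖ := by rw [hξ]; ring

theorem bdd (M : VonNeumannAlgebra H) (ξ : H) (hξ : ‖ξ‖ = 1) (a : H →L[ℂ] H) :
    BddAbove {r : ℝ | ∃ x : H →L[ℂ] H, x ∈ M ∧ ‖x‖ ≤ 1 ∧
      r = ‖vst ξ (x * a) - vst ξ (a * x)‖} := by
  refine ⟨2 * ‖a‖, ?_⟩
  rintro _ ⟨x, _, hx, rfl⟩
  have h1 : ‖vst ξ (x * a)‖ ≤ ‖a‖ := by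
    refine (vst_le ξ hξ _).trans ((norm_mul_le _ _).trans ?_)
    calc ‖x‖ * ‖a‖ ≤ 1 * ‖a‖ := by gcongr
      _ = ‖a‖ := one_mul _
  have h2 : ‖vst ξ (a * x)‖ ≤ ‖a‖ := by
    refine (vst_le ξ hξ _).trans ((norm_mul_le _ _).trans ?_)
    calc ‖a‖ * ‖x‖ ≤ ‖a‖ * 1 := by gcongr
      _ = ‖a‖ := mul_one _
  calc ‖vst ξ (x * a) - vst ξ (a * x)‖ ≤ ‖vst ξ (x * a)‖ + ‖vst ξ (a * x)‖ := norm_sub_le _ _
    _ ≤ 2 * ‖a‖ := by linarith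

theorem nonneg (M : VonNeumannAlgebra H) (ξ : H) (a : H →L[ℂ] H) : 0 ≤ commNorm M ξ a := by
  apply Real.sSup_nonneg
  rintro _ ⟨x, _, _, rfl⟩
  exact norm_nonneg _

theorem le_cn (M : VonNeumannAlgebra H) (ξ : H) (hξ : ‖ξ‖ = 1) (a x : H →L[ℂ] H) (hx : x ∈ M) :
    ‖vst ξ (x * a) - vst ξ (a * x)‖ ≤ ‖x‖ * commNorm M ξ a := by
  by_cases h0 : x = 0
  · subst h0
    simp [vst]
  have hn : 0 < ‖x‖ := norm_pos_iff.2 h0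
  set c : ℂ := ((‖x‖⁻¹ : ℝ) : ℂ) with hc
  have hcx : c • x ∈ M := M.toStarSubalgebra.smul_mem hx c
  have hcn : ‖c‖ = ‖x‖⁻¹ := by
    rw [hc, Complex.norm_real, Real.norm_of_nonneg (inv_nonneg.2 hn.le)]
  have h1 : ‖vst ξ ((c • x) * a) - vst ξ (a * (c • x))‖ ≤ commNorm M ξ a := by
    apply le_csSup (bdd M ξ hξ a)
    refine ⟨c • x, hcx, ?_, rfl⟩
    rw [norm_smul, hcn, inv_mul_cancel₀ hn.ne']
  have h2 : vst ξ ((c • x) * a) - vst ξ (a * (c • x)) = c * (vst ξ (x * a) - vst ξ (a * x)) := by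
    unfold vst
    simp only [smul_mul_assoc, mul_smul_comm, smul_apply, inner_smul_right]
    ring
  rw [h2, norm_mul, hcn, inv_mul_le_iff₀ hn] at h1
  exact h1

theorem cn_le (M : VonNeumannAlgebra H) (ξ : H) (a : H →L[ℂ] H) (C : ℝ) (hC : 0 ≤ C)
    (h : ∀ x : H →L[ℂ] H, x ∈ M → ‖x‖ ≤ 1 → ‖vst ξ (x * a) - vst ξ (a * x)‖ ≤ C) :
    commNorm M ξ a ≤ C := by
  apply Real.sSup_le _ hC
  rintro _ ⟨x, hx, hx1, rfl⟩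
  exact h x hx hx1

end

theorem a5 : S_A5 := by
  intro H _ _ _ M ξ hξ
  refine ⟨nonneg M ξ, fun a x hx => le_cn M ξ hξ a x hx, ?_, fun a C hC h => cn_le M ξ a C hC h⟩
  intro a a' hKM
  apply cn_le _ _ _ _ (norm_nonneg _)
  intro x hx hx1
  rw [hKM x hx]
  have h1 : vst ξ (x * a) - vst ξ (x * a') = ⟪ξ, x ((a - a') ξ)⟫_ℂ := by
    unfold vst
    rw [← inner_sub_right]
    congr 1
    change x (a ξ) - x (a' ξ) = x (a ξ - a' ξ)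
    rw [map_sub]
  rw [h1]
  calc ‖⟪ξ, x ((a - a') ξ)⟫_ℂ‖ ≤ ‖ξ‖ * ‖x ((a - a') ξ)‖ := norm_inner_le_norm _ _
    _ ≤ ‖ξ‖ * (‖x‖ * ‖(a - a') ξ‖) := by
      gcongr
      exact x.le_opNorm _
    _ ≤ 1 * (1 * ‖(a - a') ξ‖) := by
      rw [hξ]
      gcongr
    _ = _ := by ring

end Pool.Agent.W391.CB


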